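import Mathlib
import Pool.Agent.HVW.AllN

set_option autoImplicit false

/-!
# MP_157680_co: an exponential lower bound for halving van der Waerden numbers of every length

A 2-colouring of `[N] = {1, ..., N}` is given by a map `c : ℕ → Bool`, of which only the values on
`{1, ..., N}` are used.
-/

namespace Pool.Agent.Results.MP_157680_co.AllLengths

/-- The colouring `c` of `{1, ..., N}` is halving: the sizes of its two colour classes differ by at
most one, so they are `⌈N/2⌉` and `⌊N/2⌋`. -/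
def Halving (N : ℕ) (c : ℕ → Bool) : Prop :=
  ((Finset.Icc 1 N).filter (fun x => c x = true)).card ≤
      ((Finset.Icc 1 N).filter (fun x => c x = false)).card + 1 ∧
    ((Finset.Icc 1 N).filter (fun x => c x = false)).card ≤
      ((Finset.Icc 1 N).filter (fun x => c x = true)).card + 1

/-- Some arithmetic progression `a, a + d, ..., a + (n - 1) d` with `n` terms (`d ≥ 1`) in
`{1, ..., N}` is monochromatic for `c`. -/
def HasMonoAP (N n : ℕ) (c : ℕ → Bool) : Prop :=
  ∃ a d : ℕ, 1 ≤ a ∧ 1 ≤ d ∧ a + (n - 1) * d ≤ N ∧ ∃ b, ∀ i, i < n → c (a + i * d) = b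

/-- Let `n ≥ 1`.  If every halving 2-colouring of `{1, ..., N}` has a monochromatic arithmetic
progression with `n` terms, then `N > (n - 1) 2 ^ n / (11 n ^ 2) - 1`. -/
theorem result (n : ℕ) (hn : 1 ≤ n) (N : ℕ)
    (hN : ∀ c : ℕ → Bool, Halving N c → HasMonoAP N n c) :
    (n - 1) * 2 ^ n < 11 * n ^ 2 * (N + 1) := by
  by_contra hcon
  have hcon := not_lt.1 hcon
  rcases Nat.lt_or_ge n 3 with h | h
  · have h1 : 1 * 1 ≤ n ^ 2 * (N + 1) := Nat.mul_le_mul (Nat.one_le_pow _ _ hn) (by omega)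
    have h2 : (n - 1) * 2 ^ n ≤ 1 * 2 ^ 2 :=
      Nat.mul_le_mul (by omega) (Nat.pow_le_pow_right (by norm_num) (by omega))
    have h3 : 11 * n ^ 2 * (N + 1) = 11 * (n ^ 2 * (N + 1)) := by ring
    omega
  · obtain ⟨c, hc, hno⟩ := Pool.Agent.HVW.AllN.all_n n h N hcon
    obtain ⟨a, d, ha, hd, hle, hb⟩ := hN c hc
    exact hno a d ha hd hle hb

end Pool.Agent.Results.MP_157680_co.AllLengths
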