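import Mathlib
import Pool.Agent.HVW.Full

set_option autoImplicit false

/-!
# MP_157680_co: the Berlekamp bound for halving van der Waerden numbers

A 2-colouring of `[N] = {1, ..., N}` is given by a map `c : ℕ → Bool`, of which only the values on
`{1, ..., N}` are used.
-/

namespace Pool.Agent.Results.MP_157680_co.BerlekampBound

/-- The colouring `c` of `{1, ..., N}` is halving: the sizes of its two colour classes differ by at
most one, so they are `⌈N/2⌉` and `⌊N/2⌋`. -/
def Halving (N : ℕ) (c : ℕ → Bool) : Prop :=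
  ((Finset.Icc 1 N).filter (fun x => c x = true)).card ≤
      ((Finset.Icc 1 N).filter (fun x => c x = false)).card + 1 ∧
    ((Finset.Icc 1 N).filter (fun x => c x = false)).card ≤
      ((Finset.Icc 1 N).filter (fun x => c x = true)).card + 1

/-- Some arithmetic progression `a, a + d, ..., a + k d` (so `k + 1` terms, `d ≥ 1`) in
`{1, ..., N}` is monochromatic for `c`. -/
def HasMonoAP (N k : ℕ) (c : ℕ → Bool) : Prop :=
  ∃ a d : ℕ, 1 ≤ a ∧ 1 ≤ d ∧ a + k * d ≤ N ∧ ∃ b, ∀ i, i < k + 1 → c (a + i * d) = b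

/-- Let `p ≥ 29` be prime.  If every halving 2-colouring of `{1, ..., N}` has a monochromatic
arithmetic progression with `p + 1` terms, then `N > p (2 ^ p - 1)`. -/
theorem result (p : ℕ) (hp : p.Prime) (h29 : 29 ≤ p) (N : ℕ)
    (hN : ∀ c : ℕ → Bool, Halving N c → HasMonoAP N p c) : p * (2 ^ p - 1) < N :=
  Pool.Agent.HVW.full p hp h29 N (fun c h1 h2 => hN c ⟨h1, h2⟩)

end Pool.Agent.Results.MP_157680_co.BerlekampBound
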