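import Pool.Agent.HVW.Maj

/-!
# MP_157680_co: if `W_{1/2}(n) < W(n)`, the extremal colourings are biased in every window
-/

set_option autoImplicit false

namespace Pool.Agent.Results.MP_157680_co.BiasedWindows

open Pool.Agent.HVW

/-- `hH`: every halving colouring of `{1, ..., H}` has a monochromatic progression with `n` terms
(so `H ≥ 1`). The progressions are `r + k u, r + k (u + 1), ..., r + k (u + (H - 1))`. -/
theorem result (n H M : ℕ) (c : ℕ → Bool)
    (hH : ∀ c' : ℕ → Bool, Halving H c' → ¬ (NoAP n H c' true ∧ NoAP n H c' false))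
    (h1 : NoAP n M c true) (h2 : NoAP n M c false) (k r : ℕ) (hk : 1 ≤ k) (hr : 1 ≤ r) :
    ∃ v : Bool, ∀ u : ℕ, r + k * (u + (H - 1)) ≤ M →
      (H + 1) / 2 + 1 ≤ ((Finset.range H).filter (fun i => c (r + k * (u + i)) = v)).card :=
  bias_all n H M c hH h1 h2 k r hk hr

end Pool.Agent.Results.MP_157680_co.BiasedWindows
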