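import Pool.Agent.HVW.Main

/-!
# MP_157680_co: the halving number `W_{1/2}(a + b - 1)` is at least `2 W(a, b) - 1`

`W(a, b)` is the mixed van der Waerden number (no progression with `a` terms in the first colour, none
with `b` terms in the second colour); `W(n, n) = W(n)`, so `W_{1/2}(2 n - 1) ≥ 2 W(n) - 1`.
-/

set_option autoImplicit false

namespace Pool.Agent.Results.MP_157680_co.HalvingVsMixed

open Pool.Agent.HVW

theorem result (a b W H : ℕ) (ha : 1 ≤ a) (hb : 1 ≤ b)
    (hW : IsLeast {N : ℕ | ∀ c : ℕ → Bool, ¬ (NoAP a N c true ∧ NoAP b N c false)} W)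
    (hH : IsLeast {N : ℕ | ∀ c : ℕ → Bool, Halving N c →
      ¬ (NoAP (a + b - 1) N c true ∧ NoAP (a + b - 1) N c false)} H) :
    2 * W ≤ H + 1 :=
  main a b W H ha hb hW hH

end Pool.Agent.Results.MP_157680_co.HalvingVsMixed
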